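import Mathlib
import Pool.Agent.N273.BR.Fin2
import Pool.Agent.N371.BR.LW2
import Pool.Agent.N273.BR.DV2
import Pool.Agent.N300.BR.WN2
import Pool.Agent.N413.BR.SR3
import Pool.Agent.N31.BR.CW2
import Pool.Agent.N596.BR.WLV

/-!
# Brocard's inequality in random sets of integers: the critical density, to second order

A random set `S` of integers is built one integer at a time, with arbitrary dependence; `P n` is the
conditional probability that `n + 1` is chosen, given the decisions up to `n`. Let `p 0 < p 1 < ...` be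
the chosen integers and `N n` the number of chosen integers strictly between `p n ^ 2` and
`p (n + 1) ^ 2` (for the primes, Brocard's conjecture is `N n ≥ 4`). We find the density of `S` at
which `N n ≥ m` for all large `n` begins to hold: it is `(log log n + c log log log n) / (2 √n)` with the
critical value `c = m + 2`, thus `c = 6` for `m = 4`. It is much smaller than the critical density
`log n / (4 √n)` for a chosen integer between any two consecutive large squares, because only few integers
are chosen together with their successor: the two scales `k` (the pair `k`, `k + 1`) and `k ^ 2` (the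
integers between the squares) both enter.

Proof. Above the critical value: for `k` large and `1 ≤ g ≤ log k + 1` the probability that `k` and
`k + g` are chosen and fewer than `m` integers in `(k ^ 2, k ^ 2 + 2 k g]` is at most
`C (log log k)^2 / k * (g log log k)^(m-1) * ((log k) (log log k)^c)^(-g)`, for larger gaps the window
`(k ^ 2, k ^ 2 + 2 k log k]` is enough, and the sum over `k` and `g` converges. Below it: Lévy's form of the
lemma of Borel and Cantelli is applied three times, for the weighted number of the chosen `k`, for the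
weighted number of the chosen pairs `k`, `k + 1`, and, with the filtration taken at the squares, for the
windows `(k ^ 2, (k + 1) ^ 2)` with exactly `m - 1` chosen integers.

Written with helper31, helper265, helper300, helper371, helper413, helper478, helper596 and
helper618; it uses the libraries `Pool.Agent.R528.RM`, `Pool.Agent.N740.HK` and `Pool.Agent.N417.SM`.
-/

set_option autoImplicit false

open MeasureTheory Filter Set ProbabilityTheory
open scoped Topology

namespace Pool.Agent.Results.MP_739ba1_nt.CriticalDensity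

/-- the conditional probability of choosing `n + 1`, given the decisions up to `n` -/
noncomputable def P {Ω : Type} [m : MeasurableSpace Ω] (μ : Measure Ω) (ℱ : Filtration ℕ m) (A : ℕ → Set Ω)
    (n : ℕ) (ω : Ω) : ℝ :=
  (μ[(A (n + 1)).indicator (fun _ => (1 : ℝ)) | ℱ n]) ω

/-- `(log log n + c log log log n) / (2 √n)` -/
noncomputable def crit (c : ℝ) (n : ℕ) : ℝ :=
  (Real.log (Real.log n) + c * Real.log (Real.log (Real.log n))) / (2 * √(n : ℝ))

/-- the member number `n` of `S` in increasing order, the least member has number `0` -/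
noncomputable def p (S : Set ℕ) (n : ℕ) : ℕ := Nat.nth (· ∈ S) n

/-- the number of members of `S` strictly between the squares of the members number `n` and `n + 1` -/
noncomputable def N (S : Set ℕ) (n : ℕ) : ℕ := {q : ℕ | q ∈ S ∧ p S n ^ 2 < q ∧ q < p S (n + 1) ^ 2}.ncard

/-- Let `A n` be events adapted to a filtration (`n` is chosen), `S` the set of the chosen integers and
`m ≥ 1`.
(1) If `c > m + 2` and, for some `B`, almost surely `crit c n ≤ P n ≤ B log log n / √n` for all large `n`,
then almost surely `S` is infinite and `N n ≥ m` for all large `n`.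
(2) If `c ≤ m + 2` and, for some `δ > 0`, almost surely `δ log log n / √n ≤ P n ≤ crit c n` for all large
`n`, then almost surely `S` is infinite and for infinitely many `n` we have `p (n + 1) = p n + 1` and
`N n = m - 1`.
(3) If almost surely `P n √n / log log n` tends to `β > 1/2`, then almost surely `N n` tends to infinity;
if it tends to `β` with `0 < β < 1/2`, then almost surely every `j` is equal to `N n` for infinitely many
`n` with `p (n + 1) = p n + 1`.
(4) For independent events with `μ (A (n + 1)) = crit c n` for all large `n`: almost surely `N n ≥ m` for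
all large `n` if and only if `c > m + 2`. -/
theorem result {Ω : Type} [m0 : MeasurableSpace Ω] (μ : Measure Ω) [IsProbabilityMeasure μ] (A : ℕ → Set Ω) :
    (∀ ℱ : Filtration ℕ m0, (∀ n, MeasurableSet[ℱ n] (A n)) →
      (∀ m : ℕ, 1 ≤ m →
        (∀ c B : ℝ, (m : ℝ) + 2 < c →
          (∀ᵐ ω ∂μ, ∀ᶠ n : ℕ in atTop, crit c n ≤ P μ ℱ A n ω ∧
            P μ ℱ A n ω ≤ B * (Real.log (Real.log n) / √(n : ℝ))) →
          ∀ᵐ ω ∂μ, {k | ω ∈ A k}.Infinite ∧ ∀ᶠ n in atTop, m ≤ N {k | ω ∈ A k} n) ∧
        (∀ c δ : ℝ, c ≤ (m : ℝ) + 2 → 0 < δ →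
          (∀ᵐ ω ∂μ, ∀ᶠ n : ℕ in atTop, δ * (Real.log (Real.log n) / √(n : ℝ)) ≤ P μ ℱ A n ω ∧
            P μ ℱ A n ω ≤ crit c n) →
          ∀ᵐ ω ∂μ, {k | ω ∈ A k}.Infinite ∧ ∃ᶠ n in atTop,
            p {k | ω ∈ A k} (n + 1) = p {k | ω ∈ A k} n + 1 ∧ N {k | ω ∈ A k} n = m - 1)) ∧
      (∀ β : ℝ,
        (∀ᵐ ω ∂μ, Tendsto (fun n : ℕ => P μ ℱ A n ω * √(n : ℝ) / Real.log (Real.log n)) atTop (𝓝 β)) →
        (1 / 2 < β → ∀ᵐ ω ∂μ, {k | ω ∈ A k}.Infinite ∧ Tendsto (N {k | ω ∈ A k}) atTop atTop) ∧
        (0 < β → β < 1 / 2 → ∀ᵐ ω ∂μ, {k | ω ∈ A k}.Infinite ∧ ∀ j : ℕ, ∃ᶠ n in atTop,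
          p {k | ω ∈ A k} (n + 1) = p {k | ω ∈ A k} n + 1 ∧ N {k | ω ∈ A k} n = j))) ∧
    ((∀ n, MeasurableSet (A n)) → iIndepSet A μ → ∀ (m : ℕ) (c : ℝ), 1 ≤ m →
      (∀ᶠ n : ℕ in atTop, μ (A (n + 1)) = ENNReal.ofReal (crit c n)) →
      ((∀ᵐ ω ∂μ, ∀ᶠ n in atTop, m ≤ N {k | ω ∈ A k} n) ↔ (m : ℝ) + 2 < c)) := by
  have hC : Pool.Agent.N273.BR.CW2 := @Pool.Agent.N31.BR.cw2
  have hS : Pool.Agent.N273.BR.SR3 := Pool.Agent.N413.BR.sr3
  have hL : Pool.Agent.N273.BR.LW2 := Pool.Agent.N371.BR.lw2_of Pool.Agent.N596.BR.wlv Pool.Agent.N300.BR.wn2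
    (Pool.Agent.N273.BR.dv2_of hS Pool.Agent.N300.BR.wn2)
  refine ⟨fun ℱ hA => ⟨fun m hm => ⟨fun c B hc h => ?_, fun c δ hc hδ h => ?_⟩, fun β h => ⟨fun hβ => ?_, fun h0 h1 => ?_⟩⟩,
    fun hA hi m c hm hp => ?_⟩
  · exact Pool.Agent.N273.BR.fin_up (b := B) hC hS hA hm hc h
  · exact Pool.Agent.N273.BR.fin_low hL hA hm hδ hc h
  · filter_upwards [(Pool.Agent.N273.BR.first (ℱ := ℱ) hC hS hL hA h).1 hβ] with ω hω
    exact ⟨hω.1, tendsto_atTop.2 hω.2⟩
  · exact (Pool.Agent.N273.BR.first (ℱ := ℱ) hC hS hL hA h).2 h0 h1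
  · exact Pool.Agent.N273.BR.indep_iff hC hS hL hA hi hm hp

end Pool.Agent.Results.MP_739ba1_nt.CriticalDensity
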