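import Mathlib
import Pool.Agent.N417.SM.Broc
import Pool.Agent.N740.HK.Sch

/-!
# Brocard's problem in all sequential random models of the primes

The integers are decided one after the other and the conditional probability of choosing `n + 1`,
given the decisions up to `n`, is asymptotic to `1 / log n`, almost surely.  Nothing else is assumed:
no independence and no rate of convergence.  The independent model of Cramér and the random sieve of
Hawkins are examples.  We determine the order of the number of chosen integers between the squares of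
two consecutive chosen integers, all limit points of its two normalizations and its limit distribution.
-/

set_option autoImplicit false

open MeasureTheory Filter Set ProbabilityTheory
open scoped Topology

namespace Pool.Agent.Results.MP_739ba1_nt.SequentialModels

variable {Ω : Type}

/-- `A n` is the event that `n` is chosen.  The events are adapted to the filtration `ℱ` and the
conditional probability of `A (n + 1)` given `ℱ n`, times `log n`, tends to `1` almost surely. -/
def SequentialModel [m : MeasurableSpace Ω] (μ : Measure Ω) (ℱ : Filtration ℕ m) (A : ℕ → Set Ω) : Prop :=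
  (∀ n, MeasurableSet[ℱ n] (A n)) ∧
  ∀ᵐ ω ∂μ, Tendsto (fun n : ℕ => (μ[(A (n + 1)).indicator (fun _ => (1 : ℝ)) | ℱ n]) ω * Real.log n) atTop (𝓝 1)

/-- The model of Cramér: independent events, `n` is chosen with probability `1 / log n` for `n ≥ 3`. -/
def CramerModel [MeasurableSpace Ω] (μ : Measure Ω) (A : ℕ → Set Ω) : Prop :=
  (∀ n, MeasurableSet (A n)) ∧ iIndepSet A μ ∧ ∀ n : ℕ, 3 ≤ n → μ (A n) = ENNReal.ofReal (1 / Real.log n)

open Classical in
/-- The random sieve of Hawkins: `2` is chosen, and given the decisions up to `n ≥ 2` the number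
`n + 1` is chosen with probability `∏ (1 - 1 / h)`, the product over the chosen `2 ≤ h ≤ n`. -/
def HawkinsSieve [m : MeasurableSpace Ω] (μ : Measure Ω) (ℱ : Filtration ℕ m) (A : ℕ → Set Ω) : Prop :=
  (∀ n, MeasurableSet[ℱ n] (A n)) ∧ A 2 = univ ∧
  ∀ n, 2 ≤ n → μ[(A (n + 1)).indicator (fun _ => (1 : ℝ)) | ℱ n] =ᵐ[μ]
    fun ω => ∏ h ∈ Finset.Icc 2 n, if ω ∈ A h then 1 - 1 / (h : ℝ) else 1

/-- the member number `n` of `S` in increasing order, the least member has number `0` -/
noncomputable def p (S : Set ℕ) (n : ℕ) : ℕ := Nat.nth (· ∈ S) n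

/-- the number of members of `S` strictly between the squares of the members number `n` and `n + 1` -/
noncomputable def N (S : Set ℕ) (n : ℕ) : ℕ := {q : ℕ | q ∈ S ∧ p S n ^ 2 < q ∧ q < p S (n + 1) ^ 2}.ncard

open Pool.Agent.N740.HK Pool.Agent.R528.RM

lemma prod_inv (A : ℕ → Set Ω) (n : ℕ) (ω : Ω) [DecidablePred fun h => ω ∈ A h] :
    (∏ h ∈ Finset.Icc 2 n, if ω ∈ A h then 1 - 1 / (h : ℝ) else 1) = (Y A n ω)⁻¹ := by
  unfold Y
  rw [← Finset.prod_inv_distrib]
  refine Finset.prod_congr rfl fun h hh => ?_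
  have h2 : (2 : ℝ) ≤ h := by exact_mod_cast (Finset.mem_Icc.1 hh).1
  by_cases hA : ω ∈ A h
  · rw [if_pos hA, if_pos hA, inv_div]
    field_simp
  · rw [if_neg hA, if_neg hA, inv_one]

lemma log_ratio : Tendsto (fun n : ℕ => (Real.log ((n + 1 : ℕ) : ℝ))⁻¹ * Real.log n) atTop (𝓝 1) := by
  have h1 : Tendsto (fun n : ℕ => Real.log ((n : ℝ) + 1) - Real.log n) atTop (𝓝 0) := by
    have h1 : Tendsto (fun n : ℕ => 1 + (1 : ℝ) / n) atTop (𝓝 (1 + 0)) :=
      tendsto_const_nhds.add tendsto_one_div_atTop_nhds_zero_nat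
    rw [add_zero] at h1
    have h2 := (Real.continuousAt_log (one_ne_zero)).tendsto.comp h1
    rw [Real.log_one] at h2
    refine h2.congr' ?_
    filter_upwards [eventually_gt_atTop 0] with n hn
    have hn' : (0 : ℝ) < n := by exact_mod_cast hn
    show Real.log (1 + 1 / (n : ℝ)) = _
    rw [← Real.log_div (by positivity) hn'.ne']
    congr 1
    field_simp
  have h2 : Tendsto (fun n : ℕ => Real.log ((n : ℝ) + 1)) atTop atTop :=
    Real.tendsto_log_atTop.comp (tendsto_atTop_add_const_right _ _ tendsto_natCast_atTop_atTop)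
  have h3 := h1.div_atTop h2
  have h4 : Tendsto (fun n : ℕ => 1 - (Real.log ((n : ℝ) + 1) - Real.log n) / Real.log ((n : ℝ) + 1)) atTop (𝓝 (1 - 0)) :=
    tendsto_const_nhds.sub h3
  rw [sub_zero] at h4
  refine h4.congr' ?_
  filter_upwards [h2.eventually_gt_atTop 0] with n hn
  push_cast
  field_simp
  ring

end Pool.Agent.Results.MP_739ba1_nt.SequentialModels

open Pool.Agent.Results.MP_739ba1_nt.SequentialModels Pool.Agent.N740.HK Pool.Agent.R528.RM Pool.Agent.N417.SM

open Classical in
/-- The random sieve of Hawkins is a sequential model, the model of Cramér is one for some filtration.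
In every sequential model the following holds almost surely.  Infinitely many integers are chosen.  Let
`p n` be the chosen integers in increasing order and `N n` the number of chosen integers strictly
between `p n ^ 2` and `p (n + 1) ^ 2`.  Then `N n ≥ 4` for all large `n`; `N n` is asymptotic to
`p n (p (n + 1) - p n) / log (p n)`; the finite limit points of `N n log (p n) / p n` are exactly the
positive integers; the limit points of `N n / (p n log (p n))` are exactly the numbers in `[0, 1]`; and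
for every `lam ≥ 0` the proportion of the `k < n` with `N k / p k > lam` tends to `exp (-lam)`. -/
theorem Pool.Agent.Results.MP_739ba1_nt.SequentialModels.result
    {Ω : Type} [m : MeasurableSpace Ω] (μ : Measure Ω) [IsProbabilityMeasure μ] (A : ℕ → Set Ω) :
    (CramerModel μ A → ∃ ℱ : Filtration ℕ m, SequentialModel μ ℱ A) ∧
    ∀ ℱ : Filtration ℕ m,
    (HawkinsSieve μ ℱ A → SequentialModel μ ℱ A) ∧
    (SequentialModel μ ℱ A →
      ∀ᵐ ω ∂μ, ∀ S : Set ℕ, S = {k | ω ∈ A k} → S.Infinite ∧
        (∀ᶠ n : ℕ in atTop, 4 ≤ N S n) ∧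
        Tendsto (fun n : ℕ => (N S n : ℝ) * Real.log (p S n) / (p S n * ((p S (n + 1) : ℝ) - p S n))) atTop (𝓝 1) ∧
        (∀ c : ℝ, MapClusterPt c atTop (fun n : ℕ => (N S n : ℝ) * Real.log (p S n) / p S n) ↔
          ∃ j : ℕ, 1 ≤ j ∧ c = j) ∧
        (∀ c : ℝ, MapClusterPt c atTop (fun n : ℕ => (N S n : ℝ) / (p S n * Real.log (p S n))) ↔ 0 ≤ c ∧ c ≤ 1) ∧
        ∀ lam : ℝ, 0 ≤ lam →
          Tendsto (fun n : ℕ => (((Finset.range n).filter fun k => lam < (N S k : ℝ) / p S k).card : ℝ) / n)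
            atTop (𝓝 (Real.exp (-lam)))) := by
  refine ⟨?_, fun ℱ => ⟨?_, ?_⟩⟩
  · rintro ⟨hA, hi, hp⟩
    refine ⟨gen hA, gen_meas hA, ?_⟩
    have h1 : ∀ᵐ ω ∂μ, ∀ n, (μ[(A (n + 1)).indicator (fun _ => (1 : ℝ)) | gen hA n]) ω =
        (μ (A (n + 1))).toReal := ae_all_iff.2 fun n => dens_gen hA hi n
    filter_upwards [h1] with ω hω
    refine log_ratio.congr' ?_
    filter_upwards [eventually_ge_atTop 2] with n hn
    rw [hω, hp (n + 1) (by omega), ENNReal.toReal_ofReal, one_div]
    have : 0 ≤ Real.log ((n + 1 : ℕ) : ℝ) := Real.log_natCast_nonneg _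
    positivity
  · rintro ⟨h1, h2, h3⟩
    have hs : Pool.Agent.N740.HK.HS μ ℱ A := ⟨h1, h2, fun n hn => by
      filter_upwards [h3 n hn] with ω hω
      rw [← prod_inv]
      exact hω⟩
    exact ⟨h1, Pool.Agent.N740.HK.hawk_dens hs⟩
  · rintro ⟨hA, hd⟩
    filter_upwards [up_ae hA hd, low_ae hA hd, sh_ae hA hd, ex_ae hA hd] with ω h1 h2 h3 h4
    rintro S rfl
    have hS : {k | ω ∈ A k}.Infinite := infinite_of (fun K => by
      obtain ⟨q, hq, hK⟩ := up_inf h1 K
      exact ⟨q, hK, hq⟩)
    have ht : Tendsto (pn {k | ω ∈ A k}) atTop atTop := (Nat.nth_strictMono hS).tendsto_atTop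
    have hlq : Tendsto (fun n : ℕ => Real.log (pn {k | ω ∈ A k} n)) atTop atTop := tendsto_logN.comp ht
    have hlaw : Tendsto (fun n : ℕ => (N {k | ω ∈ A k} n : ℝ) * Real.log (p {k | ω ∈ A k} n) /
        (p {k | ω ∈ A k} n * ((p {k | ω ∈ A k} (n + 1) : ℝ) - p {k | ω ∈ A k} n))) atTop (𝓝 1) := nb_law hS h1 h3
    have hlaw' : Tendsto (fun n : ℕ => (N {k | ω ∈ A k} n : ℝ) * Real.log (pn {k | ω ∈ A k} n) /
        (pn {k | ω ∈ A k} n * gr {k | ω ∈ A k} n)) atTop (𝓝 1) := hlaw
    have hpos : ∀ᶠ n in atTop, (0 : ℝ) < pn {k | ω ∈ A k} n ∧ 1 ≤ Real.log (pn {k | ω ∈ A k} n) := by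
      filter_upwards [ht.eventually_gt_atTop 0, hlq.eventually_ge_atTop 1] with n h5 h6
      exact ⟨by exact_mod_cast h5, h6⟩
    refine ⟨hS, ?_, hlaw, ?_, ?_, ?_⟩
    · have hlog1 : Tendsto (fun x : ℝ => Real.log x / x) atTop (𝓝 0) :=
        Real.isLittleO_log_id_atTop.tendsto_div_nhds_zero
      have h5 := (hlog1.comp (tendsto_natCast_atTop_atTop.comp ht)).eventually_le_const
        (show (0 : ℝ) < 1 / 8 by norm_num)
      filter_upwards [hlaw'.eventually_const_le (show (1 / 2 : ℝ) < 1 by norm_num), hpos, h5] with n h6 h7 h8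
      have hg := gr_ge hS n
      simp only [Function.comp] at h8
      rw [div_le_iff₀ h7.1] at h8
      rw [le_div_iff₀ (mul_pos h7.1 (by linarith))] at h6
      have h9 : (4 : ℝ) ≤ N {k | ω ∈ A k} n := by
        by_contra hlt
        have hlt' := not_le.1 hlt
        have h10 : (N {k | ω ∈ A k} n : ℝ) * Real.log (pn {k | ω ∈ A k} n) < 4 * Real.log (pn {k | ω ∈ A k} n) :=
          mul_lt_mul_of_pos_right hlt' (by linarith [h7.2])
        have h11 : (pn {k | ω ∈ A k} n : ℝ) * 1 ≤ pn {k | ω ∈ A k} n * gr {k | ω ∈ A k} n :=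
          mul_le_mul_of_nonneg_left hg h7.1.le
        linarith
      exact_mod_cast h9
    · intro c
      apply cl_nat hS h2
      refine hlaw'.congr' ?_
      filter_upwards [hpos] with n hn
      have hg := gr_ge hS n
      show _ = (N {k | ω ∈ A k} n : ℝ) * Real.log (pn {k | ω ∈ A k} n) / (pn {k | ω ∈ A k} n) / gr {k | ω ∈ A k} n
      rw [div_div]
    · intro c
      apply cl_Icc hS h1 h2
      refine hlaw'.congr' ?_
      filter_upwards [hpos] with n hn
      have hg := gr_ge hS n
      have hg0 : gr {k | ω ∈ A k} n ≠ 0 := by linarith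
      have hp0 : (pn {k | ω ∈ A k} n : ℝ) ≠ 0 := hn.1.ne'
      have hl0 : Real.log (pn {k | ω ∈ A k} n) ≠ 0 := by linarith [hn.2]
      show _ = (N {k | ω ∈ A k} n : ℝ) / (pn {k | ω ∈ A k} n * Real.log (pn {k | ω ∈ A k} n)) /
        (gr {k | ω ∈ A k} n / Real.log (pn {k | ω ∈ A k} n) ^ 2)
      field_simp
    · intro lam hlam
      have h5 : Tendsto (fun k : ℕ => (N {k | ω ∈ A k} k : ℝ) / (pn {k | ω ∈ A k} k) * Real.log (pn {k | ω ∈ A k} k) /
          ((pn {k | ω ∈ A k} (k + 1) : ℝ) - pn {k | ω ∈ A k} k)) atTop (𝓝 1) := by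
        refine hlaw'.congr' ?_
        filter_upwards [hpos] with n hn
        show _ = (N {k | ω ∈ A k} n : ℝ) / (pn {k | ω ∈ A k} n) * Real.log (pn {k | ω ∈ A k} n) / gr {k | ω ∈ A k} n
        rw [div_mul_eq_mul_div, div_div]
      exact exp_law hS h4 h5 hlam
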