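import Mathlib
import Pool.Agent.N740.HK.Trials
import Pool.Agent.N740.HK.Sch
import Pool.Agent.N317.SL.Bro

/-!
# Brocard's problem in random models of the primes with sieving by small primes

The integers are decided one after the other.  An integer with a prime factor `p ≤ z(n)` is never
chosen, and the conditional probability of choosing `n + 1`, given the decisions up to `n`, is
asymptotic to `1 / (log n ∏ (1 - 1/p))`, `p ≤ z(n + 1)`, along the other integers.  With `z = 0`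
these are the models of Cramér and of Hawkins, with `z(n)` about `log n` it is Granville's
refinement.  Let `p(0) < p(1) < …` be the chosen integers and `N(n)` the number of the chosen
integers strictly between `p(n)²` and `p(n+1)²`.
-/

set_option autoImplicit false

open MeasureTheory Filter Set ProbabilityTheory
open scoped Topology

namespace Pool.Agent.Results.MP_739ba1_nt.SieveLevels

variable {Ω : Type}

/-- `n` has no prime factor at most `z` -/
def Sifted (z n : ℕ) : Prop := ∀ p : ℕ, p.Prime → p ≤ z → ¬ p ∣ n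

/-- `∏ (1 - 1/p)` over the primes `p ≤ z` -/
noncomputable def mertens (z : ℕ) : ℝ := ∏ p ∈ (Finset.Icc 1 z).filter Nat.Prime, (1 - 1 / (p : ℝ))

/-- `A n` is the event that `n` is chosen.  The events are adapted to the filtration `ℱ`; an integer
`n` with a prime factor at most `z n` is never chosen; and the conditional probability of `A (n + 1)`
given `ℱ n`, times `log n` and times `∏ (1 - 1/p)`, `p ≤ z (n + 1)`, tends to `1` almost surely when
`n` tends to infinity in such a way that `n + 1` has no prime factor at most `z (n + 1)`. -/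
def SievedModel [m : MeasurableSpace Ω] (μ : Measure Ω) (ℱ : Filtration ℕ m) (z : ℕ → ℕ) (A : ℕ → Set Ω) : Prop :=
  (∀ n, MeasurableSet[ℱ n] (A n)) ∧ (∀ n, ¬ Sifted (z n) n → A n = ∅) ∧
  ∀ᵐ ω ∂μ, Tendsto (fun n : ℕ => (μ[(A (n + 1)).indicator (fun _ => (1 : ℝ)) | ℱ n]) ω * (Real.log n * mertens (z (n + 1))))
    (atTop ⊓ 𝓟 {n : ℕ | Sifted (z (n + 1)) (n + 1)}) (𝓝 1)

/-- The independent models: the integers with a prime factor at most `z n` are not chosen, the other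
large integers `n` are chosen independently with probability `1 / (log n ∏ (1 - 1/p))`, `p ≤ z n`.
(Cramér: `z = 0`; Granville: `z n` of the order of `log n`.) -/
def IndependentModel [MeasurableSpace Ω] (μ : Measure Ω) (z : ℕ → ℕ) (A : ℕ → Set Ω) : Prop :=
  (∀ n, MeasurableSet (A n)) ∧ iIndepSet A μ ∧ (∀ n, ¬ Sifted (z n) n → A n = ∅) ∧
  ∀ᶠ n : ℕ in atTop, Sifted (z n) n → μ (A n) = ENNReal.ofReal (1 / (Real.log n * mertens (z n)))

open Classical in
/-- The random sieve of Hawkins: `2` is chosen, and given the decisions up to `n ≥ 2` the number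
`n + 1` is chosen with probability `∏ (1 - 1 / h)`, the product over the chosen `2 ≤ h ≤ n`. -/
def HawkinsSieve [m : MeasurableSpace Ω] (μ : Measure Ω) (ℱ : Filtration ℕ m) (A : ℕ → Set Ω) : Prop :=
  (∀ n, MeasurableSet[ℱ n] (A n)) ∧ A 2 = univ ∧
  ∀ n, 2 ≤ n → μ[(A (n + 1)).indicator (fun _ => (1 : ℝ)) | ℱ n] =ᵐ[μ]
    fun ω => ∏ h ∈ Finset.Icc 2 n, if ω ∈ A h then 1 - 1 / (h : ℝ) else 1

/-- `p(n)`: member number `n` of `S`, in increasing order; the least member has number `0`. -/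
noncomputable def p (S : Set ℕ) (n : ℕ) : ℕ := Nat.nth (fun m => m ∈ S) n

/-- `N(n)`: the number of the members of `S` strictly between `p(n)²` and `p(n + 1)²`. -/
noncomputable def N (S : Set ℕ) (n : ℕ) : ℕ := {r : ℕ | r ∈ S ∧ p S n ^ 2 < r ∧ r < p S (n + 1) ^ 2}.ncard

/-- `N(n) / (p(n) log p(n))` -/
noncomputable def ratio (S : Set ℕ) (n : ℕ) : ℝ := (N S n : ℝ) / (p S n * Real.log (p S n))

open Pool.Agent.N740.HK Pool.Agent.R528.RM

lemma prod_inv (A : ℕ → Set Ω) (n : ℕ) (ω : Ω) [DecidablePred fun h => ω ∈ A h] :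
    (∏ h ∈ Finset.Icc 2 n, if ω ∈ A h then 1 - 1 / (h : ℝ) else 1) = (Y A n ω)⁻¹ := by
  unfold Y
  rw [← Finset.prod_inv_distrib]
  refine Finset.prod_congr rfl fun h hh => ?_
  have h2 : (2 : ℝ) ≤ h := by exact_mod_cast (Finset.mem_Icc.1 hh).1
  by_cases hA : ω ∈ A h
  · rw [if_pos hA, if_pos hA, inv_div]
    field_simp
  · rw [if_neg hA, if_neg hA, inv_one]

lemma log_ratio : Tendsto (fun n : ℕ => (Real.log ((n + 1 : ℕ) : ℝ))⁻¹ * Real.log n) atTop (𝓝 1) := by
  have h1 : Tendsto (fun n : ℕ => Real.log ((n : ℝ) + 1) - Real.log n) atTop (𝓝 0) := by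
    have h1 : Tendsto (fun n : ℕ => 1 + (1 : ℝ) / n) atTop (𝓝 (1 + 0)) :=
      tendsto_const_nhds.add tendsto_one_div_atTop_nhds_zero_nat
    rw [add_zero] at h1
    have h2 := (Real.continuousAt_log (one_ne_zero)).tendsto.comp h1
    rw [Real.log_one] at h2
    refine h2.congr' ?_
    filter_upwards [eventually_gt_atTop 0] with n hn
    have hn' : (0 : ℝ) < n := by exact_mod_cast hn
    show Real.log (1 + 1 / (n : ℝ)) = _
    rw [← Real.log_div (by positivity) hn'.ne']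
    congr 1
    field_simp
  have h2 : Tendsto (fun n : ℕ => Real.log ((n : ℝ) + 1)) atTop atTop :=
    Real.tendsto_log_atTop.comp (tendsto_atTop_add_const_right _ _ tendsto_natCast_atTop_atTop)
  have h3 := h1.div_atTop h2
  have h4 : Tendsto (fun n : ℕ => 1 - (Real.log ((n : ℝ) + 1) - Real.log n) / Real.log ((n : ℝ) + 1)) atTop (𝓝 (1 - 0)) :=
    tendsto_const_nhds.sub h3
  rw [sub_zero] at h4
  refine h4.congr' ?_
  filter_upwards [h2.eventually_gt_atTop 0] with n hn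
  push_cast
  field_simp
  ring

end Pool.Agent.Results.MP_739ba1_nt.SieveLevels

open Pool.Agent.Results.MP_739ba1_nt.SieveLevels Pool.Agent.N740.HK Pool.Agent.R528.RM

/-- The independent models are sieved models for some filtration and Hawkins' sieve is one with `z = 0`.
(1) In all sieved models with a nondecreasing `z(n) ≤ (log n)^κ` (for large `n`), almost surely
infinitely many integers are chosen, `N(n) ≥ 4` for all large `n`,
`N(n) log p(n) / (p(n) (p(n+1) - p(n)))` tends to `1`, and the limit inferior of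
`N(n) log p(n) / p(n)` is at least `2` if `z(n) ≥ 2` for large `n`.
(2) There is `c > 0` such that for `0 < θ ≤ c` in all sieved models with a nondecreasing
`z(n) ≤ (log n)^θ`, almost surely the limit superior of `N(n) / (p(n) log p(n))` differs from `1`
by at most `exp (-c / θ)`.
(3) It is `1` almost surely if `z` is eventually smaller than every power of the logarithm.
(4) It is at least `2 e^(-γ) > 1` almost surely if `z(n) = o(log n)` and `log z(n) ~ log log n`. -/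
theorem Pool.Agent.Results.MP_739ba1_nt.SieveLevels.result :
    (∀ {Ω : Type} [m : MeasurableSpace Ω] (μ : Measure Ω) [IsProbabilityMeasure μ] (A : ℕ → Set Ω),
      (∀ z : ℕ → ℕ, IndependentModel μ z A → ∃ ℱ : Filtration ℕ m, SievedModel μ ℱ z A) ∧
      (∀ ℱ : Filtration ℕ m, HawkinsSieve μ ℱ A → SievedModel μ ℱ (fun _ => 0) A)) ∧
    (∀ {Ω : Type} [m : MeasurableSpace Ω] (μ : Measure Ω) [IsProbabilityMeasure μ] (A : ℕ → Set Ω)
      (ℱ : Filtration ℕ m) (z : ℕ → ℕ) (κ : ℝ), Monotone z → (∀ᶠ n : ℕ in atTop, (z n : ℝ) ≤ Real.log n ^ κ) →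
      SievedModel μ ℱ z A →
      ∀ᵐ ω ∂μ, {k | ω ∈ A k}.Infinite ∧ (∀ᶠ n : ℕ in atTop, 4 ≤ N {k | ω ∈ A k} n) ∧
        Tendsto (fun n => (N {k | ω ∈ A k} n : ℝ) * Real.log (p {k | ω ∈ A k} n) /
          (p {k | ω ∈ A k} n * ((p {k | ω ∈ A k} (n + 1) : ℝ) - p {k | ω ∈ A k} n))) atTop (𝓝 1) ∧
        ((∀ᶠ n : ℕ in atTop, 2 ≤ z n) → ∀ ε : ℝ, 0 < ε → ∀ᶠ n : ℕ in atTop,
          2 - ε ≤ (N {k | ω ∈ A k} n : ℝ) * Real.log (p {k | ω ∈ A k} n) / p {k | ω ∈ A k} n)) ∧
    (∃ c : ℝ, 0 < c ∧ ∀ θ : ℝ, 0 < θ → θ ≤ c →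
      ∀ {Ω : Type} [m : MeasurableSpace Ω] (μ : Measure Ω) [IsProbabilityMeasure μ] (A : ℕ → Set Ω)
        (ℱ : Filtration ℕ m) (z : ℕ → ℕ), Monotone z → (∀ᶠ n : ℕ in atTop, (z n : ℝ) ≤ Real.log n ^ θ) →
        SievedModel μ ℱ z A →
        ∀ᵐ ω ∂μ, (∀ᶠ n : ℕ in atTop, ratio {k | ω ∈ A k} n ≤ 1 + Real.exp (-(c / θ))) ∧
          ∃ᶠ n : ℕ in atTop, 1 - Real.exp (-(c / θ)) ≤ ratio {k | ω ∈ A k} n) ∧
    (∀ {Ω : Type} [m : MeasurableSpace Ω] (μ : Measure Ω) [IsProbabilityMeasure μ] (A : ℕ → Set Ω)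
      (ℱ : Filtration ℕ m) (z : ℕ → ℕ), Monotone z →
      (∀ κ : ℝ, 0 < κ → ∀ᶠ n : ℕ in atTop, (z n : ℝ) ≤ Real.log n ^ κ) → SievedModel μ ℱ z A →
      ∀ᵐ ω ∂μ, ∀ ε : ℝ, 0 < ε → (∀ᶠ n : ℕ in atTop, ratio {k | ω ∈ A k} n ≤ 1 + ε) ∧
        ∃ᶠ n : ℕ in atTop, 1 - ε ≤ ratio {k | ω ∈ A k} n) ∧
    1 < 2 * Real.exp (-Real.eulerMascheroniConstant) ∧
    (∀ {Ω : Type} [m : MeasurableSpace Ω] (μ : Measure Ω) [IsProbabilityMeasure μ] (A : ℕ → Set Ω)
      (ℱ : Filtration ℕ m) (z : ℕ → ℕ), Monotone z →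
      Tendsto (fun n : ℕ => (z n : ℝ) / Real.log n) atTop (𝓝 0) →
      Tendsto (fun n : ℕ => Real.log (z n) / Real.log (Real.log n)) atTop (𝓝 1) → SievedModel μ ℱ z A →
      ∀ᵐ ω ∂μ, ∀ lam : ℝ, lam < 2 * Real.exp (-Real.eulerMascheroniConstant) →
        ∃ᶠ n : ℕ in atTop, lam < ratio {k | ω ∈ A k} n) := by
  classical
  refine ⟨fun {Ω} m μ _ A => ⟨fun z => ?_, fun ℱ => ?_⟩, fun {Ω} m μ _ A ℱ z κ hz hzκ hM => ?_, ?_,
    fun {Ω} m μ _ A ℱ z hz hzκ hM => ?_,
    Pool.Agent.N317.SL.two_exp_gamma, fun {Ω} m μ _ A ℱ z hz hz0 hz1 hM => ?_⟩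
  · rintro ⟨hA, hi, he, hp⟩
    refine ⟨gen hA, gen_meas hA, he, ?_⟩
    have h1 : ∀ᵐ ω ∂μ, ∀ n, (μ[(A (n + 1)).indicator (fun _ => (1 : ℝ)) | gen hA n]) ω =
        (μ (A (n + 1))).toReal := ae_all_iff.2 fun n => dens_gen hA hi n
    filter_upwards [h1] with ω hω
    refine (log_ratio.mono_left inf_le_left).congr' ?_
    rw [EventuallyEq, eventually_inf_principal]
    filter_upwards [eventually_ge_atTop 2, (tendsto_add_atTop_nat 1).eventually hp] with n hn hpn hf
    have hG : 0 < mertens (z (n + 1)) := GG_pos _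
    have hn' : (2 : ℝ) ≤ n := by exact_mod_cast hn
    have hL : 0 < Real.log ((n + 1 : ℕ) : ℝ) := Real.log_pos (by push_cast; linarith)
    rw [hω, hpn hf, ENNReal.toReal_ofReal (by positivity)]
    field_simp
  · rintro ⟨h1, h2, h3⟩
    have hs : Pool.Agent.N740.HK.HS μ ℱ A := ⟨h1, h2, fun n hn => by
      filter_upwards [h3 n hn] with ω hω
      rw [← prod_inv]
      exact hω⟩
    refine ⟨h1, fun n hn => absurd (fun p hp hp0 => absurd hp.pos (not_lt.2 hp0)) hn, ?_⟩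
    filter_upwards [Pool.Agent.N740.HK.hawk_dens hs] with ω hω
    have e : mertens 0 = 1 := by
      unfold mertens
      simp
    simp only [e, mul_one]
    exact hω.mono_left inf_le_left
  · filter_upwards [Pool.Agent.N317.SL.bro_all μ ℱ A z hM.1 hz hzκ hM.2.1 hM.2.2] with ω hω
    obtain ⟨h1, h2, h3, h4, _⟩ := hω
    exact ⟨h1, h3 4, h2, h4⟩
  · obtain ⟨c, hc, h⟩ := Pool.Agent.N317.SL.bro_small
    exact ⟨c, hc, fun θ hθ hθc {Ω m} μ _ A ℱ z hz hzθ hM =>
      h θ hθ hθc μ ℱ A z hM.1 hz hzθ hM.2.1 hM.2.2⟩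
  · obtain ⟨c, hc, h⟩ := Pool.Agent.N317.SL.bro_small
    have h1 : ∀ᵐ ω ∂μ, ∀ k : ℕ,
        (∀ᶠ n : ℕ in atTop, ratio {k | ω ∈ A k} n ≤ 1 + Real.exp (-(c / (c / ((k : ℝ) + 1))))) ∧
          ∃ᶠ n : ℕ in atTop, 1 - Real.exp (-(c / (c / ((k : ℝ) + 1)))) ≤ ratio {k | ω ∈ A k} n := by
      rw [ae_all_iff]
      intro k
      have hk : (0 : ℝ) < (k : ℝ) + 1 := by positivity
      have h2 : c / ((k : ℝ) + 1) ≤ c := by
        apply div_le_self hc.le
        have : (0 : ℝ) ≤ k := Nat.cast_nonneg k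
        linarith
      exact h _ (div_pos hc hk) h2 μ ℱ A z hM.1 hz (hzκ _ (div_pos hc hk)) hM.2.1 hM.2.2
    filter_upwards [h1] with ω hω
    intro ε hε
    have h3 : Tendsto (fun k : ℕ => Real.exp (-((k : ℝ) + 1))) atTop (𝓝 0) :=
      Real.tendsto_exp_neg_atTop_nhds_zero.comp
        (tendsto_atTop_add_const_right _ _ tendsto_natCast_atTop_atTop)
    obtain ⟨k, hk⟩ := (h3.eventually (gt_mem_nhds hε)).exists
    have e : c / (c / ((k : ℝ) + 1)) = (k : ℝ) + 1 := by field_simp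
    obtain ⟨h4, h5⟩ := hω k
    rw [e] at h4 h5
    exact ⟨h4.mono fun n hn => by linarith, h5.mono fun n hn => by linarith⟩
  · exact Pool.Agent.N317.SL.bro_one μ ℱ A z hM.1 hz hz0 hz1 hM.2.1 hM.2.2
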